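import Pool.Agent.Q46.ND.StmE

/-! Project LN (helper46), job EF (helper13): kernel vectors from critical points. -/

set_option autoImplicit false

open MvPolynomial

namespace Pool.Agent.Q13.ND

open Pool.Agent.Q46.ND

section
variable {k : Type} [Field k] {m : ℕ}

/-- the derivative in the direction `w` at `t` -/
noncomputable def Dw (t w : Fin m → k) (p : MvPolynomial (Fin m) k) : k :=
  ∑ j, w j * eval t (pderiv j p)

variable (t w : Fin m → k)

lemma Dw_zero : Dw t w 0 = 0 := by
  simp [Dw]

lemma Dw_add (p q : MvPolynomial (Fin m) k) : Dw t w (p + q) = Dw t w p + Dw t w q := by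
  simp only [Dw, map_add, mul_add, Finset.sum_add_distrib]

lemma Dw_sub (p q : MvPolynomial (Fin m) k) : Dw t w (p - q) = Dw t w p - Dw t w q := by
  simp only [Dw, map_sub, mul_sub, Finset.sum_sub_distrib]

lemma Dw_mul (p q : MvPolynomial (Fin m) k) :
    Dw t w (p * q) = eval t p * Dw t w q + eval t q * Dw t w p := by
  simp only [Dw, Derivation.leibniz, smul_eq_mul, map_add, map_mul, mul_add,
    Finset.sum_add_distrib, Finset.mul_sum]
  congr 1 <;> exact Finset.sum_congr rfl fun j _ => by ring

lemma Dw_C_mul (a : k) (q : MvPolynomial (Fin m) k) :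
    Dw t w (C a * q) = a * Dw t w q := by
  rw [Dw_mul, eval_C]
  simp [Dw]

lemma Dw_sum {ι : Type} (s : Finset ι) (f : ι → MvPolynomial (Fin m) k) :
    Dw t w (∑ i ∈ s, f i) = ∑ i ∈ s, Dw t w (f i) := by
  classical
  induction s using Finset.induction_on with
  | empty => simp [Dw_zero]
  | insert a s ha ih => rw [Finset.sum_insert ha, Finset.sum_insert ha, Dw_add, ih]

lemma span_zero {F : MvPolynomial (Fin m) k} (ht : ∀ i, eval t (pderiv i F) = 0)
    {p : MvPolynomial (Fin m) k} (hp : p ∈ Ideal.span (Set.range fun i => pderiv i F)) :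
    eval t p = 0 := by
  have h : Ideal.span (Set.range fun i => pderiv i F) ≤ RingHom.ker (eval t) := by
    rw [Ideal.span_le]
    rintro _ ⟨i, rfl⟩
    exact ht i
  exact h hp

lemma span_Dw {F : MvPolynomial (Fin m) k} (ht : ∀ i, eval t (pderiv i F) = 0)
    (hw : ∀ i, ∑ j, w j * eval t (pderiv j (pderiv i F)) = 0)
    {p : MvPolynomial (Fin m) k} (hp : p ∈ Ideal.span (Set.range fun i => pderiv i F)) :
    Dw t w p = 0 := by
  obtain ⟨g, hg⟩ := (Ideal.mem_span_range_iff_exists_fun).1 hp
  rw [← hg, Dw_sum]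
  refine Finset.sum_eq_zero fun i _ => ?_
  rw [Dw_mul, ht i]
  have h : Dw t w (pderiv i F) = 0 := hw i
  rw [h]
  ring

end

theorem t_EF : P_EF := by
  intro k _ m d F u M hM t c ht hc
  have hF : eval t F = -c := eq_neg_of_add_eq_zero_left hc
  constructor
  · funext β
    have h := span_zero t ht (hM β)
    rw [map_sub, map_mul, map_mul, eval_C, map_sum, hF] at h
    simp only [map_mul, eval_C] at h
    rw [Matrix.add_mulVec, Matrix.smul_mulVec, Matrix.one_mulVec]
    simp only [Pi.add_apply, Pi.smul_apply, smul_eq_mul, Matrix.mulVec, dotProduct, Pi.zero_apply]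
    linear_combination -h
  · intro w hw
    funext β
    have h := span_Dw t w ht hw (hM β)
    rw [Dw_sub, mul_assoc, Dw_C_mul, Dw_mul, Dw_sum, hF] at h
    simp only [Dw_C_mul] at h
    have hDF : Dw t w F = 0 := by
      unfold Dw
      exact Finset.sum_eq_zero fun j _ => by rw [ht j, mul_zero]
    rw [hDF] at h
    rw [Matrix.add_mulVec, Matrix.smul_mulVec, Matrix.one_mulVec]
    simp only [Pi.add_apply, Pi.smul_apply, smul_eq_mul, Matrix.mulVec, dotProduct, Pi.zero_apply]
    change u * c * Dw t w (mon β) + ∑ β', M β β' * Dw t w (mon β') = 0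
    linear_combination -h

end Pool.Agent.Q13.ND
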